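import Pool.Agent.Work.MP_0f1f76_lc.ReadDefs
import Pool.Agent.Work.MP_0f1f76_lc.InputFinal

namespace Pool.Agent.Results.MP_0f1f76_lc.InputLocalLowerBound

open Pool.Agent.Work.MP_0f1f76_lc

/-- Let `R` be a randomized online algorithm for `n` rounds of `n × n` matrix-vector
multiplication over `𝔽₂`, `n ≤ 2 ^ ℓ`, in the cell-probe model with cells of `w` bits (any number
of cells, free preprocessing, free computation, free memory updates between rounds).  Let the
matrix and the vectors be uniformly random, and assume that the probability that some output is
wrong is at most `1/3` (this holds in particular if it is at most `1/3` on every input).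

* The expected number of probes plus the expected sensitivity cost (number of pairs of a probe and
  a bit of the current vector such that changing the bit changes the content read by the probe) is
  at least `n³ / (432 (w + ℓ))`.
* In particular, if every content read depends on at most `b` bits of the current vector, then the
  expected total number of cell probes is at least `n³ / (432 (2 b + 1) (w + ℓ))`. -/
theorem result {n S w ℓ : ℕ} (hn : 16 ≤ n) (hw : 1 ≤ w) (hℓ : n ≤ 2 ^ ℓ) (R : RandAlg n S w)
    (herr : avgInput R.errProb ≤ 1 / 3) :
    (n : ℝ) ^ 3 ≤ 432 * ((w : ℝ) + ℓ) * (avgInput R.expProbes + avgInput R.expSens) ∧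
    ∀ b : ℕ, R.InputLocal b →
      (n : ℝ) ^ 3 ≤ 432 * ((w : ℝ) + ℓ) * (2 * b + 1) * avgInput R.expProbes := by
  have h := input_main hn hw hℓ R herr
  refine ⟨h, fun b hb => h.trans ?_⟩
  have h1 := expSens_le R hb
  have h0 : (0 : ℝ) ≤ 432 * ((w : ℝ) + ℓ) := by positivity
  calc 432 * ((w : ℝ) + ℓ) * (avgInput R.expProbes + avgInput R.expSens)
      ≤ 432 * ((w : ℝ) + ℓ) * (avgInput R.expProbes + 2 * b * avgInput R.expProbes) := by
        gcongr
    _ = _ := by ring

end Pool.Agent.Results.MP_0f1f76_lc.InputLocalLowerBound
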