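import Pool.Agent.Work.MP_0f1f76_lc.Rect.Final

namespace Pool.Agent.Results.MP_0f1f76_lc.RectOMV

open Pool.Agent.OMV

/-- **Matrix-vector multiplication over `F_2` after preprocessing the `m × n` matrix, with
`m n / 2^(c min (log n) (log m / log log m))` word operations per vector.**

There are a constant `c > 0` and `n₀` such that for all `m, n ≥ n₀` there is a straight-line word
program `P` (word length `w = ⌈log₂ (max m n)⌉`; instructions: XOR of two registers, and one
look-up in a memory table with a `w`-bit address) with at most
`m n / 2^(c min (log n) (log m / log log m))` instructions, and an `F_2`-affine preprocessing map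
`M ↦ base + pre M` from `m × n` matrices to the contents of at most `m n` tables (each of `2^w`
words of `w` bits, so `poly(m, n)` bits altogether), such that for every matrix `M` the program
computes `M x` for every vector `x`.

For `m = n` the bound is `n^(2 - c' / log log n)`; as soon as `log m ≥ log n * log log n` it is
`m n^(1 - c')`. -/
theorem result : ∃ (c : ℝ) (_ : 0 < c) (n₀ : ℕ), ∀ m n : ℕ, n₀ ≤ m → n₀ ≤ n →
    ∃ (S : ℕ) (P : List Instr) (out : ℕ → ℕ)
      (pre : Matrix (Fin m) (Fin n) (ZMod 2) →ₗ[ZMod 2]
        (Fin S → Word (Nat.clog 2 (max m n)) → Word (Nat.clog 2 (max m n))))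
      (base : Fin S → Word (Nat.clog 2 (max m n)) → Word (Nat.clog 2 (max m n))),
      S ≤ m * n ∧
      (P.length : ℝ) ≤
        m * n / 2 ^ (c * min (Real.log n) (Real.log m / Real.log (Real.log m))) ∧
      ∀ M, RComputes P out (base + pre M) M :=
  Rect.romv_final

end Pool.Agent.Results.MP_0f1f76_lc.RectOMV
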