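import Pool.Agent.Work.MP_0f1f76_lc.Tens.Final

namespace Pool.Agent.Results.MP_0f1f76_lc.TensorInputs

open Pool.Agent.OMV Pool.Agent.OMV.Tens

/-- **OMV over `F_2`, multilinear forms and pure tensor inputs are equally hard.**

For every `D ≥ 2`, and for arbitrary as well as for `F_2`-affine preprocessing, the following are
equivalent (`Fast aff B e`: for some `ε > 0`, straight-line word programs with at most `n^(e - ε)`
instructions per query, words of `O(log n)` bits and polynomially large tables depending on the
data solve `B n`, for all large `n`):

* matrix-vector products `M x` over `F_2` with `n × n` matrices `M` can be computed in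
  `n^(2 - ε)` instructions;
* `D`-linear forms on `(F_2^s)^D` can be evaluated in `s^(D - ε)` instructions (for `D = 2` this is
  vector-matrix-vector multiplication `uᵀ M v`);
* products `M (w_1 ⊗ ⋯ ⊗ w_D)` with `s^D × s^D` matrices `M` and pure tensors (given by `D s` bits)
  can be computed in `s^(2 D - ε)` instructions. -/
theorem result : ∀ (aff : Bool) (D : ℕ), 2 ≤ D →
    [Fast aff omv 2, Fast aff (form D) D, Fast aff (tensorOmv D) (2 * D)].TFAE :=
  fun aff _ hD => tfae aff hD

end Pool.Agent.Results.MP_0f1f76_lc.TensorInputs
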