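import Pool.Agent.OMVU.Final

namespace Pool.Agent.Results.MP_0f1f76_lc.UniformOMV

open Pool.Agent.OMVU Pool.Agent.CCL

/-- **A uniform deterministic algorithm for online matrix-vector multiplication over `F_2` with
`m n / 2^(δ min (log n) (log m / log log m))` steps per vector.**

There is one fixed program `P` of a random access machine (constants, addition, truncated
subtraction, indirect loads and stores, reading, writing, jumps; unit cost; all numbers at most
`(m n)^k`, that is, words of `O(log (m n))` bits) such that for all `m, n ≥ n₀` and every
`m × n` matrix `M` over `F_2`: the program reads `M`, does a preprocessing of at most `(m n)^k`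
steps, and then reads the vectors one after the other; for each vector `v` it writes the bits of
`M v` before it reads the next one, in at most `m n / 2^(δ min (log n) (log m / log log m))`
steps.

For `m = n` this is `n^(2 - δ' / log log n)` steps per vector and
`n^3 / 2^(Ω(log n / log log n))` steps for `n` vectors. -/
theorem result : ∃ (P : List Instr) (δ : ℝ) (_ : 0 < δ) (k n₀ : ℕ), ∀ m n : ℕ,
    n₀ ≤ m → n₀ ≤ n → ∀ M : Matrix (Fin m) (Fin n) (ZMod 2),
      Serves P M ((m * n) ^ k) ((m * n) ^ k)
        (m * n / 2 ^ (δ * min (Real.log n) (Real.log m / Real.log (Real.log m)))) :=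
  final

end Pool.Agent.Results.MP_0f1f76_lc.UniformOMV
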